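import Pool.Agent.Q324.FA.Main
import Pool.Agent.NPC.Dec

/-!
# MP_e24068_lc: deciding whether a finite language has a nontrivial factorization is NP-hard
-/

namespace Pool.Agent.Results.MP_e24068_lc.FactorizationNPHard

open Pool.Agent.NPC Pool.Agent.Q324.FA

/-- The problem to decide whether a finite nonempty language, given by the list of its words, has a
nontrivial factorization is `NP`-hard. So if it is solvable in polynomial time, then `P = NP`. -/
theorem result :
    NPHardP (fun I : List ℕ × List (List ℕ) => Valid I ∧ HasFactorization I) ∧
    (InPP (fun I : List ℕ × List (List ℕ) => Valid I ∧ HasFactorization I) →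
      ∀ L : Set (List Bool), InNP L → InP L) := by
  have h : NPHardP (fun I : List ℕ × List (List ℕ) => Valid I ∧ HasFactorization I) := by
    refine HardI.toNPHardP fun L hL => ?_
    obtain ⟨f, hf, hfp, hfL⟩ := hardPr_fact L hL
    exact ⟨f, hf, fun x => (hfL x).trans ⟨fun h => ⟨hfp x, h⟩, fun h => h.2⟩⟩
  exact ⟨h, fun h' => NPHard.collapse h h'⟩

end Pool.Agent.Results.MP_e24068_lc.FactorizationNPHard
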